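import Mathlib
import Pool.Agent.H325.EN.Defs
import Pool.Graph.R_pool_sql_team_668148b0.Helper351.LE.T3

/-!
# Nilpotent groups generated by left 3-Engel elements: the final form with the 2-part
-/

set_option autoImplicit false

namespace Pool.Agent.H603.EN

open Pool.Agent.H325.EN

theorem L3_map {G H : Type} [Group G] [Group H] (φ : G →* H) (hφ : Function.Surjective φ) {a : G}
    (ha : L3 a) : L3 (φ a) := by
  intro y
  obtain ⟨x, rfl⟩ := hφ y
  have h1 : Function.Semiconj φ (fun y : G => y⁻¹ * a⁻¹ * y * a)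
      (fun y : H => y⁻¹ * (φ a)⁻¹ * y * φ a) := by
    intro z
    simp only [map_mul, map_inv]
  have h2 := (h1.iterate_right 3) x
  rw [← h2, ha x, map_one]

/-- the terms of the lower central series of a quotient -/
theorem map_mem {G H : Type} [Group G] [Group H] (φ : G →* H) (hφ : Function.Surjective φ) {k : ℕ}
    (h : Subgroup.lowerCentralSeries (⊤ : Subgroup H) k = ⊥) {x : G}
    (hx : x ∈ Subgroup.lowerCentralSeries (⊤ : Subgroup G) k) : φ x = 1 := by
  have h1 : φ x ∈ (Subgroup.lowerCentralSeries (⊤ : Subgroup G) k).map φ :=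
    Subgroup.mem_map_of_mem φ hx
  rw [Subgroup.map_lowerCentralSeries, Subgroup.map_top_of_surjective φ hφ, h] at h1
  exact Subgroup.mem_bot.mp h1

theorem fin (h1 : S_MAIN.{0}) (h2 : S_TOR.{0}) : ∃ f s : ℕ → ℕ, ∀ (d : ℕ) (G : Type) [Group G]
    (g : Fin d → G), Group.IsNilpotent G → Subgroup.closure (Set.range g) = ⊤ →
    (∀ i : Fin d, ∀ x : G, (fun y : G => y⁻¹ * (g i)⁻¹ * y * g i)^[3] x = 1) →
    (∀ k, f d ≤ k → ∀ x ∈ Subgroup.lowerCentralSeries (⊤ : Subgroup G) k,
      x ^ 2 ^ s d ∈ Subgroup.lowerCentralSeries (⊤ : Subgroup G) (k + 1)) ∧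
    ((∀ x : G, x ^ 2 = 1 → x = 1) → upperCentralSeries G (f d) = ⊤) := by
  obtain ⟨f1, hf1⟩ := h1
  choose c e he h using fun d : ℕ => Pool.Agent.Helper351.LE.uniform_exp 3 d (by norm_num)
  choose s o ho hso using fun d : ℕ => Nat.exists_eq_two_pow_mul_odd (he d).ne'
  refine ⟨fun d => max (c d) (f1 d), s, ?_⟩
  intro d G _ g hnil hcl hE
  have := hnil
  obtain ⟨k1, k2⟩ := h d G g hcl hE
  refine ⟨?_, ?_⟩
  · intro k hk x hx
    simp only at hk
    have hkc : c d ≤ k := (le_max_left _ _).trans hk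
    have hkf : f1 d ≤ k := (le_max_right _ _).trans hk
    have hxe := k1 k hkc x hx
    obtain ⟨N, hN⟩ : ∃ N : Subgroup G, N = Subgroup.lowerCentralSeries (⊤ : Subgroup G) (k + 1) :=
      ⟨_, rfl⟩
    have hNn : N.Normal := by
      rw [hN]
      infer_instance
    rw [← hN] at hxe ⊢
    obtain ⟨T, hT, hTm⟩ := h2 (G ⧸ N) inferInstance
    -- the quotient without elements of order two
    obtain ⟨φ, hφ⟩ : ∃ φ : G →* (G ⧸ N) ⧸ T,
        φ = (QuotientGroup.mk' T).comp (QuotientGroup.mk' N) := ⟨_, rfl⟩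
    have hφs : Function.Surjective φ := by
      rw [hφ]
      exact (QuotientGroup.mk'_surjective T).comp (QuotientGroup.mk'_surjective N)
    have hno : NoTwo ((G ⧸ N) ⧸ T) := by
      intro y hy
      obtain ⟨z, rfl⟩ := QuotientGroup.mk'_surjective T y
      rw [← map_pow] at hy
      have h3 : z ^ 2 ∈ T := (QuotientGroup.eq_one_iff _).mp hy
      rw [hTm] at h3
      obtain ⟨n, hn⟩ := h3
      refine (QuotientGroup.eq_one_iff _).mpr ((hTm z).mpr ⟨n + 1, ?_⟩)
      rw [pow_succ', pow_mul]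
      exact hn
    have hcl' : Subgroup.closure (Set.range fun i => φ (g i)) = ⊤ := by
      have h3 : (Set.range fun i => φ (g i)) = φ '' Set.range g := by
        rw [← Set.range_comp]
        rfl
      rw [h3, ← MonoidHom.map_closure, hcl, Subgroup.map_top_of_surjective φ hφs]
    have h3 := hf1 d ((G ⧸ N) ⧸ T) (fun i => φ (g i)) inferInstance hno hcl'
      (fun i => L3_map φ hφs (hE i))
    have h4 : φ x = 1 := map_mem φ hφs h3
      (Subgroup.lowerCentralSeries_antitone _ hkf hx)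
    have h5 : QuotientGroup.mk' N x ∈ T := by
      rw [hφ] at h4
      exact (QuotientGroup.eq_one_iff _).mp h4
    rw [hTm] at h5
    obtain ⟨n, hn⟩ := h5
    have h6 : (QuotientGroup.mk' N x) ^ (2 ^ s d * o d) = 1 := by
      rw [← hso, ← map_pow]
      exact (QuotientGroup.eq_one_iff _).mpr hxe
    have h7 : orderOf (QuotientGroup.mk' N x) ∣ 2 ^ n := orderOf_dvd_of_pow_eq_one hn
    have h8 : orderOf (QuotientGroup.mk' N x) ∣ 2 ^ s d * o d := orderOf_dvd_of_pow_eq_one h6
    have h9 : Nat.Coprime (orderOf (QuotientGroup.mk' N x)) (o d) :=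
      Nat.Coprime.coprime_dvd_left h7
        (Nat.Coprime.pow_left n (Nat.coprime_two_left.mpr (ho d)))
    have h10 : orderOf (QuotientGroup.mk' N x) ∣ 2 ^ s d := h9.dvd_of_dvd_mul_right h8
    have h11 : (QuotientGroup.mk' N x) ^ 2 ^ s d = 1 := orderOf_dvd_iff_pow_eq_one.mp h10
    rw [← map_pow] at h11
    exact (QuotientGroup.eq_one_iff _).mp h11
  · intro hno
    have h3 := hf1 d G g hnil hno hcl hE
    have h4 : Subgroup.lowerCentralSeries (⊤ : Subgroup G) (max (c d) (f1 d)) = ⊥ := by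
      rw [eq_bot_iff, ← h3]
      exact Subgroup.lowerCentralSeries_antitone _ (le_max_right _ _)
    have h5 : Group.nilpotencyClass G ≤ max (c d) (f1 d) :=
      Subgroup.lowerCentralSeries_eq_bot_iff_nilpotencyClass_le.1 h4
    exact Subgroup.upperCentralSeries_eq_top_iff_nilpotencyClass_le.2 h5

end Pool.Agent.H603.EN
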